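import Pool.Agent.Lib.MP_e3f158_nt.WA.Comb
import Pool.Agent.Lib.MP_e3f158_nt.D2.FinalA
import Pool.Agent.Lib.MP_e3f158_nt.PSW.Final

/-!
# MP_e3f158_nt: windows with an even integer of type `(a, b)`, all types
-/

namespace Pool.Agent.Lib.MP_e3f158_nt.WA

open Finset Filter D2

private theorem ev_log (k : ℕ) (M : ℝ) : ∀ᶠ N : ℕ in atTop, M * (Real.log N) ^ k ≤ N := by
  have h1 : (fun x : ℝ => (Real.log x) ^ k) =o[atTop] (fun x : ℝ => x) :=
    Real.isLittleO_pow_log_id_atTop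
  have h2 := h1.bound (c := 1 / (|M| + 1)) (by positivity)
  filter_upwards [tendsto_natCast_atTop_atTop.eventually h2, eventually_ge_atTop 1] with N hN hN1
  have hN1r : (1 : ℝ) ≤ N := by exact_mod_cast hN1
  have hl : 0 ≤ Real.log N := Real.log_nonneg hN1r
  rw [Real.norm_of_nonneg (by positivity), Real.norm_of_nonneg (by positivity)] at hN
  have h3 : (|M| + 1) * (Real.log N) ^ k ≤ N := by
    have h4 : (|M| + 1) * (Real.log N) ^ k ≤ (|M| + 1) * (1 / (|M| + 1) * N) :=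
      mul_le_mul_of_nonneg_left hN (by positivity)
    have h5 : (|M| + 1) * (1 / (|M| + 1) * (N : ℝ)) = N := by
      field_simp
    linarith
  have h6 : M * (Real.log N) ^ k ≤ (|M| + 1) * (Real.log N) ^ k := by
    refine mul_le_mul_of_nonneg_right ?_ (by positivity)
    have := le_abs_self M
    linarith
  linarith

private theorem ev_large (M : ℝ) : ∀ᶠ N : ℕ in atTop, M ≤ Real.log N :=
  (Real.tendsto_log_atTop.comp tendsto_natCast_atTop_atTop).eventually_ge_atTop M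

open Classical in
/-- the number of `n ≤ N` with an even integer of type `(a, b)` in `[n, n + W]` -/
noncomputable def cw (a b N W : ℕ) : ℕ :=
  ((Icc 1 N).filter fun n => ∃ m, n ≤ m ∧ m ≤ n + W ∧ (Even m ∧ HasRep a b m)).card

theorem cw_mono (a b N : ℕ) {W W' : ℕ} (h : W ≤ W') : cw a b N W ≤ cw a b N W' := by
  classical
  unfold cw
  refine card_le_card ?_
  intro n hn
  rw [mem_filter] at hn ⊢
  obtain ⟨h1, m, h2, h3, h4⟩ := hn
  exact ⟨h1, m, h2, by omega, h4⟩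

theorem windows (a b : ℕ) : ∃ c : ℝ, 0 < c ∧ ∀ᶠ N : ℕ in atTop, ∀ W : ℕ,
    c * N * min 1 (((W : ℝ) + 1) / (Real.log (Real.log N)) ^ (b + 1)) ≤ (cw a b N W : ℝ) := by
  obtain ⟨c₁, hc₁, C₁, hC₁, hA⟩ := hitS (a + 1)
  obtain ⟨c₂, hc₂, C₂, hC₂, hB⟩ := hitS (b + 1)
  have hC₁0 : 0 < C₁ := by linarith
  have hC₂0 : 0 < C₂ := by linarith
  set D : ℝ := 2 * C₂ * ((a : ℝ) + 2) ^ (b + 1) with hD
  have hD1 : 1 ≤ D := by
    have h1 : (1 : ℝ) ≤ ((a : ℝ) + 2) ^ (b + 1) := one_le_pow₀ (by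
      have : (0 : ℝ) ≤ a := Nat.cast_nonneg a
      linarith)
    rw [hD]
    nlinarith
  have hD0 : 0 < D := by linarith
  -- conditions on `H`
  have hHcond : ∀ᶠ H : ℕ in atTop, 4 * ((⌈C₂ * (Real.log H) ^ (b + 1)⌉₊ : ℕ) : ℝ) ^ 2 ≤ H ∧
      (3 : ℝ) ≤ ⌈C₂ * (Real.log H) ^ (b + 1)⌉₊ ∧
      1 / c₂ ≤ (⌈C₂ * (Real.log H) ^ (b + 1)⌉₊ : ℝ) ∧ 1 / c₁ ≤ H ∧
      ((⌈C₂ * (Real.log H) ^ (b + 1)⌉₊ : ℕ) : ℝ) ≤ 2 * C₂ * (Real.log H) ^ (b + 1) ∧
      1 ≤ Real.log H ∧
      ∀ V : ℕ, C₂ * (Real.log H) ^ (b + 1) ≤ V → 4 * (V : ℝ) ^ 2 ≤ H → c₂ * H / V ≤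
        (((range (H / V)).filter fun j => pic (b + 1) (j * V) < pic (b + 1) ((j + 1) * V)).card : ℝ) := by
    filter_upwards [hB, ev_large 3, ev_large (1 / c₂), ev_log (2 * (b + 1)) (16 * C₂ ^ 2),
      (tendsto_natCast_atTop_atTop (R := ℝ)).eventually_ge_atTop (1 / c₁)] with H h1 h2 h3 h4 h5
    set l := Real.log H with hl
    have hl0 : 0 < l := by linarith
    have hlp : 1 ≤ l ^ b := one_le_pow₀ (by linarith)
    have hge : l ≤ C₂ * l ^ (b + 1) := by
      calc l = 1 * (1 * l) := by ring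
        _ ≤ C₂ * (l ^ b * l) := by gcongr
        _ = C₂ * l ^ (b + 1) := by ring
    have hle : ((⌈C₂ * l ^ (b + 1)⌉₊ : ℕ) : ℝ) ≤ 2 * C₂ * l ^ (b + 1) := by
      have := Nat.ceil_lt_add_one (a := C₂ * l ^ (b + 1)) (by positivity)
      linarith
    have hge' : C₂ * l ^ (b + 1) ≤ ((⌈C₂ * l ^ (b + 1)⌉₊ : ℕ) : ℝ) := Nat.le_ceil _
    refine ⟨?_, by linarith, by linarith, h5, hle, by linarith, h1⟩
    calc 4 * ((⌈C₂ * l ^ (b + 1)⌉₊ : ℕ) : ℝ) ^ 2 ≤ 4 * (2 * C₂ * l ^ (b + 1)) ^ 2 := by gcongr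
      _ = 16 * C₂ ^ 2 * l ^ (2 * (b + 1)) := by ring
      _ ≤ H := h4
  have hHlim : Tendsto (fun N : ℕ => ⌈C₁ * (Real.log N) ^ (a + 1)⌉₊) atTop atTop := by
    refine tendsto_nat_ceil_atTop.comp ?_
    refine Tendsto.const_mul_atTop hC₁0 ?_
    exact (tendsto_pow_atTop (by omega)).comp
      (Real.tendsto_log_atTop.comp tendsto_natCast_atTop_atTop)
  have hloglog : ∀ᶠ N : ℕ in atTop, Real.log (2 * C₁) ≤ Real.log (Real.log N) :=
    (Real.tendsto_log_atTop.comp
      (Real.tendsto_log_atTop.comp tendsto_natCast_atTop_atTop)).eventually_ge_atTop _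
  refine ⟨c₁ * c₂ / (16 * D), by positivity, ?_⟩
  filter_upwards [hA, hHlim.eventually hHcond, ev_large 1, hloglog,
    ev_log (2 * (a + 1)) (16 * C₁ ^ 2)] with N h1 h2 h3 h4 h5 W
  set L := Real.log N with hL
  have hL0 : 0 < L := by linarith
  set H := ⌈C₁ * L ^ (a + 1)⌉₊ with hHdef
  obtain ⟨g1, g2, g3, g4, g5, g6, g7⟩ := h2
  set V := ⌈C₂ * (Real.log H) ^ (b + 1)⌉₊ with hVdef
  have hLp : 1 ≤ C₁ * L ^ (a + 1) := one_le_mul_of_one_le_of_one_le hC₁ (one_le_pow₀ h3)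
  have hHge : C₁ * L ^ (a + 1) ≤ H := Nat.le_ceil _
  have hHle : (H : ℝ) ≤ 2 * C₁ * L ^ (a + 1) := by
    have := Nat.ceil_lt_add_one (a := C₁ * L ^ (a + 1)) (by positivity)
    rw [← hHdef] at this
    linarith
  have hH1 : (1 : ℝ) ≤ H := by linarith
  have h4H : 4 * (H : ℝ) ^ 2 ≤ N := by
    calc 4 * (H : ℝ) ^ 2 ≤ 4 * (2 * C₁ * L ^ (a + 1)) ^ 2 := by gcongr
      _ = 16 * C₁ ^ 2 * L ^ (2 * (a + 1)) := by ring
      _ ≤ N := h5
  have hI := h1 H hHge h4H
  have hJ := g7 V (Nat.le_ceil _) g1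
  set I := (range (N / H)).filter fun i => pic (a + 1) (i * H) < pic (a + 1) ((i + 1) * H) with hIdef
  set J := (range (H / V)).filter fun j => pic (b + 1) (j * V) < pic (b + 1) ((j + 1) * V) with hJdef
  have hV0 : (0 : ℝ) < V := by linarith
  have hV3 : 3 ≤ V := by exact_mod_cast g2
  have hVH : V ≤ H := by
    have : (V : ℝ) ≤ H := by nlinarith
    exact_mod_cast this
  have hH0 : (0 : ℝ) < H := by linarith
  have hN0 : (0 : ℝ) < N := by nlinarith
  -- the two factors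
  have hI2 : c₁ * N / (2 * H) ≤ ((I.card - 2 : ℕ) : ℝ) := by
    have e1 : (4 : ℝ) ≤ c₁ * N / H := by
      rw [le_div_iff₀ hH0]
      have e2 : 1 ≤ c₁ * H := by
        rw [div_le_iff₀ hc₁] at g4
        linarith
      have e3 : c₁ * (4 * (H : ℝ) ^ 2) ≤ c₁ * N := mul_le_mul_of_nonneg_left h4H hc₁.le
      nlinarith
    have e4 : (I.card : ℝ) ≤ ((I.card - 2 : ℕ) : ℝ) + 2 := by
      exact_mod_cast (by omega : I.card ≤ (I.card - 2) + 2)
    have e5 : c₁ * N / (2 * H) = c₁ * N / H / 2 := by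
      rw [mul_comm 2 (H : ℝ), ← div_div]
    rw [e5]
    linarith
  have hJ2 : c₂ * H / (2 * V) ≤ ((J.card - 1 : ℕ) : ℝ) := by
    have e1 : (2 : ℝ) ≤ c₂ * H / V := by
      rw [le_div_iff₀ hV0]
      have e2 : 1 ≤ c₂ * V := by
        rw [div_le_iff₀ hc₂] at g3
        linarith
      have e3 : c₂ * (4 * (V : ℝ) ^ 2) ≤ c₂ * H := mul_le_mul_of_nonneg_left g1 hc₂.le
      nlinarith
    have e4 : (J.card : ℝ) ≤ ((J.card - 1 : ℕ) : ℝ) + 1 := by
      exact_mod_cast (by omega : J.card ≤ (J.card - 1) + 1)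
    have e5 : c₂ * H / (2 * V) = c₂ * H / V / 2 := by
      rw [mul_comm 2 (V : ℝ), ← div_div]
    rw [e5]
    linarith
  have hall : ∀ w : ℕ, w ≤ V → c₁ * c₂ / 16 * N * (((w : ℝ) + 1) / V) ≤ (cw a b N w : ℝ) := by
    intro w hw
    have e1 := win_all a b N H V w hV3 hVH hw
    have e2 : ((w : ℝ) + 1) * (((I.card - 2 : ℕ) : ℝ) * ((J.card - 1 : ℕ) : ℝ)) ≤
        4 * (cw a b N w : ℝ) := by
      unfold cw
      exact_mod_cast e1
    have e3 : c₁ * N / (2 * H) * (c₂ * H / (2 * V)) ≤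
        ((I.card - 2 : ℕ) : ℝ) * ((J.card - 1 : ℕ) : ℝ) :=
      mul_le_mul hI2 hJ2 (by positivity) (by positivity)
    have e4 : c₁ * N / (2 * H) * (c₂ * H / (2 * V)) = c₁ * c₂ * N / (4 * V) := by
      field_simp
      ring
    rw [e4] at e3
    have e5 := mul_le_mul_of_nonneg_left e3 (by positivity : (0 : ℝ) ≤ (w : ℝ) + 1)
    have e6 : c₁ * c₂ / 16 * N * (((w : ℝ) + 1) / V) =
        ((w : ℝ) + 1) * (c₁ * c₂ * N / (4 * V)) / 4 := by
      field_simp
      ring
    rw [e6]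
    linarith
  -- the comparison of `V` and `(log log N)^(b+1)`
  set lam := Real.log L with hlam
  have hlogH : Real.log H ≤ ((a : ℝ) + 2) * lam := by
    have e1 : Real.log H ≤ Real.log (2 * C₁ * L ^ (a + 1)) := Real.log_le_log hH0 hHle
    rw [Real.log_mul (by positivity) (by positivity), Real.log_pow] at e1
    push_cast at e1
    linarith
  have hlam0 : 0 < lam := by
    have h6 : 0 < ((a : ℝ) + 2) * lam := by linarith
    by_contra hcon
    have : ((a : ℝ) + 2) * lam ≤ 0 := mul_nonpos_of_nonneg_of_nonpos (by positivity) (not_lt.1 hcon)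
    linarith
  have hVD : (V : ℝ) ≤ D * lam ^ (b + 1) := by
    refine g5.trans ?_
    have e1 : (Real.log H) ^ (b + 1) ≤ (((a : ℝ) + 2) * lam) ^ (b + 1) :=
      pow_le_pow_left₀ (by linarith) hlogH _
    rw [mul_pow] at e1
    calc 2 * C₂ * (Real.log H) ^ (b + 1) ≤ 2 * C₂ * (((a : ℝ) + 2) ^ (b + 1) * lam ^ (b + 1)) :=
          mul_le_mul_of_nonneg_left e1 (by positivity)
      _ = D * lam ^ (b + 1) := by rw [hD]; ring
  have hfin : ∀ w : ℕ, 1 / D * min 1 (((W : ℝ) + 1) / lam ^ (b + 1)) ≤ ((w : ℝ) + 1) / V →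
      w ≤ V → w ≤ W →
      c₁ * c₂ / (16 * D) * N * min 1 (((W : ℝ) + 1) / lam ^ (b + 1)) ≤ (cw a b N W : ℝ) := by
    intro w hw1 hw2 hw3
    have e1 := hall w hw2
    have e2 : (cw a b N w : ℝ) ≤ cw a b N W := by exact_mod_cast cw_mono a b N hw3
    refine le_trans ?_ (e1.trans e2)
    have e3 := mul_le_mul_of_nonneg_left hw1 (by positivity : (0 : ℝ) ≤ c₁ * c₂ / 16 * N)
    refine le_trans (le_of_eq ?_) e3
    field_simp
  rcases le_total W V with hWV | hWV
  · refine hfin W ?_ hWV le_rfl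
    have e1 : min 1 (((W : ℝ) + 1) / lam ^ (b + 1)) ≤ ((W : ℝ) + 1) / lam ^ (b + 1) := min_le_right _ _
    calc 1 / D * min 1 (((W : ℝ) + 1) / lam ^ (b + 1)) ≤ 1 / D * (((W : ℝ) + 1) / lam ^ (b + 1)) :=
          mul_le_mul_of_nonneg_left e1 (by positivity)
      _ = ((W : ℝ) + 1) / (D * lam ^ (b + 1)) := by field_simp
      _ ≤ ((W : ℝ) + 1) / V := div_le_div_of_nonneg_left (by positivity) hV0 hVD
  · refine hfin V ?_ le_rfl hWV
    have e1 : min 1 (((W : ℝ) + 1) / lam ^ (b + 1)) ≤ 1 := min_le_left _ _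
    have e2 : 1 / D ≤ 1 := by
      rw [div_le_one hD0]
      exact hD1
    have e3 : (1 : ℝ) ≤ ((V : ℝ) + 1) / V := by
      rw [one_le_div hV0]
      linarith
    have e4 : 0 ≤ min 1 (((W : ℝ) + 1) / lam ^ (b + 1)) := le_min (by norm_num) (by positivity)
    calc 1 / D * min 1 (((W : ℝ) + 1) / lam ^ (b + 1)) ≤ 1 * 1 :=
          mul_le_mul e2 e1 e4 (by norm_num)
      _ = 1 := by norm_num
      _ ≤ _ := e3

theorem hasRep_symm (a b m : ℕ) : HasRep a b m ↔ HasRep b a m := by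
  constructor
  · rintro ⟨x, y, hx, hy, h, hne⟩
    exact ⟨y, x, hy, hx, by rw [add_comm]; exact h, hne.symm⟩
  · rintro ⟨x, y, hx, hy, h, hne⟩
    exact ⟨y, x, hy, hx, by rw [add_comm]; exact h, hne.symm⟩

theorem cw_symm (a b N W : ℕ) : cw a b N W = cw b a N W := by
  classical
  unfold cw
  congr 1
  apply filter_congr
  intro n _
  simp_rw [hasRep_symm a b]

theorem cw_eq (a b N W : ℕ) : cw a b N W =
    Set.ncard {n : ℕ | 1 ≤ n ∧ n ≤ N ∧ ∃ m, n ≤ m ∧ m ≤ n + W ∧ Even m ∧ HasRep a b m} := by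
  classical
  unfold cw
  rw [← Set.ncard_coe_finset]
  congr 1
  ext n
  simp only [Set.mem_ofPred_eq, coe_filter, mem_Icc]
  exact and_assoc

/-- the lower bound with the term from the density theorem -/
theorem windows_add (a b : ℕ) : ∃ c : ℝ, 0 < c ∧ ∀ᶠ N : ℕ in atTop, ∀ W : ℕ,
    c * N * min 1 (((W : ℝ) + 1) / (Real.log (Real.log N)) ^ (b + 1) +
      1 / ((Real.log (Real.log N)) ^ b * (Real.log (Real.log (Real.log N))) ^ 3)) ≤
      (cw a b N W : ℝ) := by
  classical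
  obtain ⟨c, hc, h⟩ := windows a b
  refine ⟨min c 1 / 2, by positivity, ?_⟩
  have hl : ∀ᶠ N : ℕ in atTop, 0 < Real.log (Real.log (Real.log N)) :=
    (Real.tendsto_log_atTop.comp (Real.tendsto_log_atTop.comp
      (Real.tendsto_log_atTop.comp tendsto_natCast_atTop_atTop))).eventually_gt_atTop 0
  have hl2 : ∀ᶠ N : ℕ in atTop, 0 < Real.log (Real.log N) :=
    (Real.tendsto_log_atTop.comp
      (Real.tendsto_log_atTop.comp tendsto_natCast_atTop_atTop)).eventually_gt_atTop 0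
  filter_upwards [h, D2.mainA a b, hl, hl2] with N h1 h2 h3 h4 W
  set x : ℝ := ((W : ℝ) + 1) / (Real.log (Real.log N)) ^ (b + 1) with hx
  set y : ℝ := 1 / ((Real.log (Real.log N)) ^ b * (Real.log (Real.log (Real.log N))) ^ 3) with hy
  have hx0 : 0 ≤ x := by positivity
  have hy0 : 0 ≤ y := by positivity
  have hN0 : (0 : ℝ) ≤ N := Nat.cast_nonneg N
  have e1 : c * N * min 1 x ≤ (cw a b N W : ℝ) := h1 W
  have e2 : N * y ≤ (cw a b N W : ℝ) := by
    have e3 : N * y = (N : ℝ) / ((Real.log (Real.log N)) ^ b *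
        (Real.log (Real.log (Real.log N))) ^ 3) := by
      rw [hy]; ring
    rw [e3]
    refine h2.trans ?_
    have e4 : ((Icc 1 N).filter fun m => Even m ∧ HasRep a b m).card ≤ cw a b N W := by
      unfold cw
      refine card_le_card ?_
      intro n hn
      rw [mem_filter] at hn ⊢
      exact ⟨hn.1, n, le_rfl, by omega, hn.2⟩
    exact_mod_cast e4
  have e5 : min 1 (x + y) ≤ min 1 x + y := by
    rcases le_total 1 x with hx1 | hx1
    · rw [min_eq_left hx1]
      exact (min_le_left _ _).trans (by linarith)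
    · rw [min_eq_right hx1]
      exact min_le_right _ _
  have hm0 : 0 ≤ min 1 x := le_min (by norm_num) hx0
  have hc1 : min c 1 ≤ c := min_le_left _ _
  have hc2 : min c 1 ≤ 1 := min_le_right _ _
  have hc0 : 0 < min c 1 := lt_min hc one_pos
  have e6 : min c 1 * N * min 1 x ≤ c * N * min 1 x := by gcongr
  have e7 : min c 1 * N * y ≤ N * y := by
    have : 0 ≤ N * y := by positivity
    nlinarith
  have e8 : min c 1 / 2 * N * min 1 (x + y) ≤ min c 1 / 2 * N * (min 1 x + y) :=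
    mul_le_mul_of_nonneg_left e5 (by positivity)
  have e9 : min c 1 / 2 * N * (min 1 x + y) =
      (min c 1 * N * min 1 x + min c 1 * N * y) / 2 := by ring
  linarith

/-- the types `(a, 0)` -/
theorem windows_zero (a : ℕ) : ∃ c : ℝ, 0 < c ∧ ∀ᶠ N : ℕ in atTop, ∀ W : ℕ,
    c * N * min 1 (((W : ℝ) + 1) / Real.log (Real.log (Real.log (Real.log N)))) ≤
      (cw a 0 N W : ℝ) := by
  classical
  obtain ⟨c, C, hc, -, h⟩ := PSW.final_upper
  refine ⟨c / 8, by positivity, ?_⟩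
  have hl3 : Tendsto (fun N : ℕ => Real.log (Real.log (Real.log N))) atTop atTop :=
    Real.tendsto_log_atTop.comp (Real.tendsto_log_atTop.comp
      (Real.tendsto_log_atTop.comp tendsto_natCast_atTop_atTop))
  filter_upwards [hl3.eventually_ge_atTop ((a : ℝ) + 4), eventually_ge_atTop 64,
    eventually_ge_atTop (2 * 2 ^ (a ^ 2 + 2 * a + 5) + 2)] with N h1 h2 h3 W
  set X := N / 2 with hX
  have hX2 : 2 * X ≤ N := by omega
  have hX4 : (N : ℝ) ≤ 4 * X := by
    have : N ≤ 4 * X := by omega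
    exact_mod_cast this
  have hXt : 2 ^ (a ^ 2 + 2 * a + 5) ≤ X := by omega
  have hfin := h a X W (Or.inl hXt)
  have hX32 : (32 : ℝ) ≤ X := by
    have : 32 ≤ X := by omega
    exact_mod_cast this
  have hsub : Set.ncard {n : ℕ | X ≤ n ∧ n ≤ 2 * X ∧
        ∃ m, n ≤ m ∧ m ≤ n + W ∧ Even m ∧ HasRep a 0 m} ≤ cw a 0 N W := by
    rw [cw_eq]
    refine Set.ncard_le_ncard ?_ ((Set.finite_Iic N).subset fun n hn => hn.2.1)
    rintro n ⟨h4, h5, h6⟩
    exact ⟨by omega, by omega, h6⟩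
  have hsubr : (Set.ncard {n : ℕ | X ≤ n ∧ n ≤ 2 * X ∧
        ∃ m, n ≤ m ∧ m ≤ n + W ∧ Even m ∧ HasRep a 0 m} : ℝ) ≤ cw a 0 N W := by
    exact_mod_cast hsub
  refine le_trans ?_ (hfin.trans hsubr)
  -- comparison of the iterated logarithms
  set t := Real.log (Real.log (Real.log N)) with ht
  have ha0 : (0 : ℝ) ≤ a := Nat.cast_nonneg a
  have hlogX : 1 < Real.log X := by
    rw [Real.lt_log_iff_exp_lt (by linarith)]
    have := Real.exp_one_lt_d9
    linarith
  have hXN : (X : ℝ) ≤ N := by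
    have : X ≤ N := by omega
    exact_mod_cast this
  have hlXN : Real.log X ≤ Real.log N := Real.log_le_log (by linarith) hXN
  have hllX0 : 0 < Real.log (Real.log X) := Real.log_pos hlogX
  have hllXN : Real.log (Real.log X) ≤ Real.log (Real.log N) :=
    Real.log_le_log (by linarith) hlXN
  have hl3X : Real.log (Real.log (Real.log X)) ≤ t := Real.log_le_log hllX0 hllXN
  have ht4 : 4 ≤ t := by linarith
  have hl3X0 : 0 ≤ Real.log (Real.log (Real.log X)) := by
    have e1 : (1.2 : ℝ) ≤ Real.log (Real.log X) := by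
      rw [Real.le_log_iff_exp_le (by linarith)]
      have e2 : (3.4 : ℝ) ≤ Real.log X := by
        have e3 : Real.log 32 ≤ Real.log X := Real.log_le_log (by norm_num) hX32
        have e4 : Real.log 32 = 5 * Real.log 2 := by
          rw [show (32 : ℝ) = 2 ^ 5 by norm_num, Real.log_pow]; norm_num
        have := Real.log_two_gt_d9
        linarith
      have e5 : Real.exp 1.2 ≤ 3.4 := by
        have e6 : Real.exp 1.2 = Real.exp 1 * Real.exp 0.2 := by
          rw [← Real.exp_add]; norm_num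
        have e7 := Real.exp_one_lt_d9
        have e8 : Real.exp 0.2 ≤ 1.25 := by
          have e9 := Real.exp_bound' (x := 0.2) (by norm_num) (by norm_num) (n := 3) (by norm_num)
          refine e9.trans ?_
          simp only [Finset.sum_range_succ, Finset.sum_range_zero, Nat.factorial]
          norm_num
        rw [e6]
        have e10 : 0 < Real.exp 0.2 := Real.exp_pos _
        nlinarith
      linarith
    exact Real.log_nonneg (by linarith)
  have hu : Real.log ((a : ℝ) + 2 + Real.log (Real.log (Real.log X))) ≤ 2 * Real.log t := by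
    have e1 : (a : ℝ) + 2 + Real.log (Real.log (Real.log X)) ≤ t ^ 2 := by nlinarith
    have e2 := Real.log_le_log (by linarith) e1
    rw [Real.log_pow] at e2
    push_cast at e2
    exact e2
  have hu0 : 0 < Real.log ((a : ℝ) + 2 + Real.log (Real.log (Real.log X))) :=
    Real.log_pos (by linarith)
  have hlt : 0 < Real.log t := Real.log_pos (by linarith)
  set u := Real.log ((a : ℝ) + 2 + Real.log (Real.log (Real.log X))) with hudef
  have hmin : 1 / 2 * min 1 (((W : ℝ) + 1) / Real.log t) ≤ min 1 (((W : ℝ) + 1) / u) := by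
    have e0 : 0 ≤ min 1 (((W : ℝ) + 1) / Real.log t) := le_min (by norm_num) (by positivity)
    refine le_min ?_ ?_
    · have := min_le_left 1 (((W : ℝ) + 1) / Real.log t)
      linarith
    · have e1 := min_le_right 1 (((W : ℝ) + 1) / Real.log t)
      calc 1 / 2 * min 1 (((W : ℝ) + 1) / Real.log t) ≤ 1 / 2 * (((W : ℝ) + 1) / Real.log t) :=
            mul_le_mul_of_nonneg_left e1 (by norm_num)
        _ = ((W : ℝ) + 1) / (2 * Real.log t) := by field_simp
        _ ≤ ((W : ℝ) + 1) / u := div_le_div_of_nonneg_left (by positivity) hu0 hu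
  have hm0 : 0 ≤ min 1 (((W : ℝ) + 1) / Real.log t) := le_min (by norm_num) (by positivity)
  calc c / 8 * N * min 1 (((W : ℝ) + 1) / Real.log t)
      ≤ c / 8 * (4 * X) * min 1 (((W : ℝ) + 1) / Real.log t) := by gcongr
    _ = c * (X * (1 / 2 * min 1 (((W : ℝ) + 1) / Real.log t))) := by ring
    _ ≤ c * (X * min 1 (((W : ℝ) + 1) / u)) := by gcongr

end Pool.Agent.Lib.MP_e3f158_nt.WA
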