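import Pool.Agent.Lib.MP_e3f158_nt.WA.HitS

/-!
# MP_e3f158_nt: separated sums of an `a`-prime from a long block and a `b`-prime from a short block
-/

namespace Pool.Agent.Lib.MP_e3f158_nt.WA

open Finset Filter D2

theorem win_sep (N W : ℕ) (M : Finset ℕ) (P : ℕ → Prop) [DecidablePred fun n => ∃ m, n ≤ m ∧ m ≤ n + W ∧ P m]
    (hM : ∀ m ∈ M, W + 1 ≤ m ∧ m ≤ N ∧ P m)
    (hsep : ∀ m ∈ M, ∀ m' ∈ M, m < m' → m + W < m') :
    (W + 1) * M.card ≤ ((Icc 1 N).filter fun n => ∃ m, n ≤ m ∧ m ≤ n + W ∧ P m).card := by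
  have h1 : (M.biUnion fun m => Icc (m - W) m) ⊆
      (Icc 1 N).filter fun n => ∃ m, n ≤ m ∧ m ≤ n + W ∧ P m := by
    intro n hn
    rw [mem_biUnion] at hn
    obtain ⟨m, hm, hn⟩ := hn
    obtain ⟨h2, h3, h4⟩ := hM m hm
    rw [mem_Icc] at hn
    rw [mem_filter, mem_Icc]
    exact ⟨⟨by omega, by omega⟩, m, hn.2, by omega, h4⟩
  have h2 := card_le_card h1
  rw [card_biUnion] at h2
  · have h3 : ∑ m ∈ M, (Icc (m - W) m).card = ∑ m ∈ M, (W + 1) := by
      refine sum_congr rfl fun m hm => ?_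
      have := (hM m hm).1
      rw [Nat.card_Icc]
      omega
    rw [h3, sum_const, smul_eq_mul, mul_comm] at h2
    exact h2
  · intro m hm m' hm' hne
    change Disjoint (Icc (m - W) m) (Icc (m' - W) m')
    rw [Finset.disjoint_left]
    intro n hn hn'
    rw [mem_Icc] at hn hn'
    rcases lt_or_gt_of_ne hne with h | h
    · have := hsep m hm m' hm' h
      omega
    · have := hsep m' hm' m hm h
      omega

theorem hit_elem {R H i : ℕ} (h : pic R (i * H) < pic R ((i + 1) * H)) :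
    i * H < pr^[R] (pic R ((i + 1) * H)) ∧ pr^[R] (pic R ((i + 1) * H)) ≤ (i + 1) * H ∧
      1 ≤ pic R ((i + 1) * H) := by
  have hy : 1 ≤ pic R ((i + 1) * H) := by omega
  refine ⟨?_, (iter_le_iff R _ _ hy).2 (le_refl _), hy⟩
  have h1 := iter_le_iff R (pic R ((i + 1) * H)) (i * H) hy
  by_contra h2
  rw [not_lt] at h2
  have := h1.1 h2
  omega

open Classical in
theorem win_class (a b N H V W e f : ℕ) (hV : 3 ≤ V) (hW : W ≤ V) (I J : Finset ℕ)
    (hI : ∀ i ∈ I, i % 2 = e ∧ 1 ≤ i ∧ (i + 2) * H ≤ N ∧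
      pic (a + 1) (i * H) < pic (a + 1) ((i + 1) * H))
    (hJ : ∀ j ∈ J, j % 2 = f ∧ 1 ≤ j ∧ (j + 1) * V ≤ H ∧
      pic (b + 1) (j * V) < pic (b + 1) ((j + 1) * V)) :
    (W + 1) * (I.card * J.card) ≤
      ((Icc 1 N).filter fun n => ∃ m, n ≤ m ∧ m ≤ n + W ∧ (Even m ∧ HasRep a b m)).card := by
  set p : ℕ → ℕ := fun i => pr^[a + 1] (pic (a + 1) ((i + 1) * H)) with hp
  set q : ℕ → ℕ := fun j => pr^[b + 1] (pic (b + 1) ((j + 1) * V)) with hq
  have hpI : ∀ i ∈ I, i * H < p i ∧ p i ≤ (i + 1) * H ∧ 1 ≤ pic (a + 1) ((i + 1) * H) :=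
    fun i hi => hit_elem (hI i hi).2.2.2
  have hqJ : ∀ j ∈ J, j * V < q j ∧ q j ≤ (j + 1) * V ∧ 1 ≤ pic (b + 1) ((j + 1) * V) :=
    fun j hj => hit_elem (hJ j hj).2.2.2
  have hqH : ∀ j ∈ J, V < q j ∧ q j ≤ H := by
    intro j hj
    obtain ⟨h1, h2, -⟩ := hqJ j hj
    obtain ⟨-, h3, h4, -⟩ := hJ j hj
    have h5 : 1 * V ≤ j * V := Nat.mul_le_mul_right _ h3
    omega
  have hpH : ∀ i ∈ I, H < p i := by
    intro i hi
    obtain ⟨h1, -⟩ := hpI i hi
    have h5 : 1 * H ≤ i * H := Nat.mul_le_mul_right _ (hI i hi).2.1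
    omega
  -- separation
  have hs1 : ∀ i ∈ I, ∀ i' ∈ I, ∀ j ∈ J, ∀ j' ∈ J, i < i' → p i + q j + V < p i' + q j' := by
    intro i hi i' hi' j hj j' hj' h
    have h1 := hpI i hi
    have h2 := hpI i' hi'
    have h3 := hqH j hj
    have h4 := hqH j' hj'
    have h5 : i + 2 ≤ i' := by
      have := (hI i hi).1
      have := (hI i' hi').1
      omega
    have h6 : (i + 2) * H ≤ i' * H := Nat.mul_le_mul_right _ h5
    have h7 : (i + 2) * H = (i + 1) * H + H := by ring
    omega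
  have hs2 : ∀ i, ∀ j ∈ J, ∀ j' ∈ J, j < j' → p i + q j + V < p i + q j' := by
    intro i j hj j' hj' h
    have h1 := hqJ j hj
    have h2 := hqJ j' hj'
    have h5 : j + 2 ≤ j' := by
      have := (hJ j hj).1
      have := (hJ j' hj').1
      omega
    have h6 : (j + 2) * V ≤ j' * V := Nat.mul_le_mul_right _ h5
    have h7 : (j + 2) * V = (j + 1) * V + V := by ring
    omega
  have hs : ∀ x ∈ I ×ˢ J, ∀ y ∈ I ×ˢ J, x ≠ y →
      p x.1 + q x.2 + V < p y.1 + q y.2 ∨ p y.1 + q y.2 + V < p x.1 + q x.2 := by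
    rintro ⟨i, j⟩ hx ⟨i', j'⟩ hy hne
    rw [mem_product] at hx hy
    simp only at hx hy ⊢
    rcases lt_trichotomy i i' with h | h | h
    · exact Or.inl (hs1 i hx.1 i' hy.1 j hx.2 j' hy.2 h)
    · subst h
      rcases lt_trichotomy j j' with h' | h' | h'
      · exact Or.inl (hs2 i j hx.2 j' hy.2 h')
      · exact absurd (by rw [h']) hne
      · exact Or.inr (hs2 i j' hy.2 j hx.2 h')
    · exact Or.inr (hs1 i' hy.1 i hx.1 j' hy.2 j hx.2 h)
  set M : Finset ℕ := (I ×ˢ J).image fun x => p x.1 + q x.2 with hM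
  have hcard : M.card = I.card * J.card := by
    rw [hM, card_image_of_injOn, card_product]
    intro x hx y hy hxy
    by_contra hne
    simp only at hxy
    rcases hs x (mem_coe.1 hx) y (mem_coe.1 hy) hne with h | h <;> omega
  rw [← hcard]
  refine win_sep N W M (fun m => Even m ∧ HasRep a b m) ?_ ?_
  · intro m hm
    rw [hM, mem_image] at hm
    obtain ⟨⟨i, j⟩, hx, rfl⟩ := hm
    rw [mem_product] at hx
    simp only at hx ⊢
    obtain ⟨hi, hj⟩ := hx
    have h1 := hpI i hi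
    have h2 := hqJ j hj
    have h3 := hqH j hj
    have h4 := hpH i hi
    have h5 := (hI i hi).2.2.1
    have h7 : (i + 2) * H = (i + 1) * H + H := by ring
    have hpp : (p i).Prime := ipr_prime a _
    have hqp : (q j).Prime := ipr_prime b _
    refine ⟨by omega, by omega, ?_, ?_⟩
    · exact (odd_of_prime_gt hpp (by omega)).add_odd (odd_of_prime_gt hqp (by omega))
    · exact ⟨_, _, h1.2.2, h2.2.2, rfl, by
        show p i ≠ q j
        omega⟩
  · intro m hm m' hm' h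
    rw [hM, mem_image] at hm hm'
    obtain ⟨x, hx, rfl⟩ := hm
    obtain ⟨y, hy, rfl⟩ := hm'
    have hne : x ≠ y := by
      rintro rfl
      omega
    rcases hs x hx y hy hne with h' | h' <;> omega

open Classical in
/-- the sums from all hit blocks -/
theorem win_all (a b N H V W : ℕ) (hV : 3 ≤ V) (hVH : V ≤ H) (hW : W ≤ V) :
    (W + 1) * ((((range (N / H)).filter fun i => pic (a + 1) (i * H) <
        pic (a + 1) ((i + 1) * H)).card - 2) *
      (((range (H / V)).filter fun j => pic (b + 1) (j * V) <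
        pic (b + 1) ((j + 1) * V)).card - 1)) ≤
      4 * ((Icc 1 N).filter fun n => ∃ m, n ≤ m ∧ m ≤ n + W ∧ (Even m ∧ HasRep a b m)).card := by
  set I := (range (N / H)).filter fun i => pic (a + 1) (i * H) < pic (a + 1) ((i + 1) * H) with hIdef
  set J := (range (H / V)).filter fun j => pic (b + 1) (j * V) < pic (b + 1) ((j + 1) * V) with hJdef
  set Ie : ℕ → Finset ℕ := fun e => I.filter fun i => i % 2 = e ∧ 1 ≤ i ∧ i + 2 ≤ N / H with hIe
  set Jf : ℕ → Finset ℕ := fun f => J.filter fun j => j % 2 = f ∧ 1 ≤ j with hJf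
  have hI : ∀ e, ∀ i ∈ Ie e, i % 2 = e ∧ 1 ≤ i ∧ (i + 2) * H ≤ N ∧
      pic (a + 1) (i * H) < pic (a + 1) ((i + 1) * H) := by
    intro e i hi
    rw [hIe, mem_filter, hIdef, mem_filter] at hi
    obtain ⟨⟨-, h1⟩, h2, h3, h4⟩ := hi
    exact ⟨h2, h3, (Nat.le_div_iff_mul_le (by omega)).1 h4, h1⟩
  have hJ : ∀ f, ∀ j ∈ Jf f, j % 2 = f ∧ 1 ≤ j ∧ (j + 1) * V ≤ H ∧
      pic (b + 1) (j * V) < pic (b + 1) ((j + 1) * V) := by
    intro f j hj
    rw [hJf, mem_filter, hJdef, mem_filter, mem_range] at hj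
    obtain ⟨⟨h0, h1⟩, h2, h3⟩ := hj
    exact ⟨h2, h3, (Nat.le_div_iff_mul_le (by omega)).1 h0, h1⟩
  have hcI : I.card - 2 ≤ (Ie 0).card + (Ie 1).card := by
    have h2 : I ⊆ (Ie 0 ∪ Ie 1) ∪ {0, N / H - 1} := by
      intro i hi
      have hin : i < N / H := by
        rw [hIdef, mem_filter, mem_range] at hi
        exact hi.1
      rw [mem_union, mem_union, mem_insert, mem_singleton]
      by_cases h3 : i = 0
      · right; left; exact h3
      · by_cases h4 : i = N / H - 1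
        · right; right; exact h4
        · left
          rcases Nat.mod_two_eq_zero_or_one i with h | h
          · left; exact mem_filter.2 ⟨hi, h, by omega, by omega⟩
          · right; exact mem_filter.2 ⟨hi, h, by omega, by omega⟩
    have h3 : I.card ≤ (Ie 0).card + (Ie 1).card + 2 := by
      refine (card_le_card h2).trans ((card_union_le _ _).trans ?_)
      refine Nat.add_le_add (card_union_le _ _) ?_
      exact (card_insert_le _ _).trans (by simp)
    omega
  have hcJ : J.card - 1 ≤ (Jf 0).card + (Jf 1).card := by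
    have h2 : J ⊆ (Jf 0 ∪ Jf 1) ∪ {0} := by
      intro j hj
      rw [mem_union, mem_union, mem_singleton]
      by_cases h3 : j = 0
      · right; exact h3
      · left
        rcases Nat.mod_two_eq_zero_or_one j with h | h
        · left; exact mem_filter.2 ⟨hj, h, by omega⟩
        · right; exact mem_filter.2 ⟨hj, h, by omega⟩
    have h3 : J.card ≤ (Jf 0).card + (Jf 1).card + 1 := by
      refine (card_le_card h2).trans ((card_union_le _ _).trans ?_)
      refine Nat.add_le_add (card_union_le _ _) ?_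
      simp
    omega
  have h00 := win_class a b N H V W 0 0 hV hW (Ie 0) (Jf 0) (hI 0) (hJ 0)
  have h01 := win_class a b N H V W 0 1 hV hW (Ie 0) (Jf 1) (hI 0) (hJ 1)
  have h10 := win_class a b N H V W 1 0 hV hW (Ie 1) (Jf 0) (hI 1) (hJ 0)
  have h11 := win_class a b N H V W 1 1 hV hW (Ie 1) (Jf 1) (hI 1) (hJ 1)
  calc (W + 1) * ((I.card - 2) * (J.card - 1))
      ≤ (W + 1) * (((Ie 0).card + (Ie 1).card) * ((Jf 0).card + (Jf 1).card)) :=
        Nat.mul_le_mul_left _ (Nat.mul_le_mul hcI hcJ)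
    _ = (W + 1) * ((Ie 0).card * (Jf 0).card) + (W + 1) * ((Ie 0).card * (Jf 1).card) +
        (W + 1) * ((Ie 1).card * (Jf 0).card) + (W + 1) * ((Ie 1).card * (Jf 1).card) := by ring
    _ ≤ _ := by omega

end Pool.Agent.Lib.MP_e3f158_nt.WA
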