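import Pool.Agent.Lib.MP_e3f158_nt.D2.TSieve
import Pool.Agent.Lib.MP_e3f158_nt.D2.AvgE
import Pool.Agent.Lib.MP_e3f158_nt.PSW.Core

/-!
# MP_e3f158_nt: the second moment of the number of primes in blocks

For `log N ≤ H ≤ N` the sum of the squares of the numbers of primes in the blocks of length `H` up
to `N` is at most `C N H / (log N)^2`.
-/

namespace Pool.Agent.Lib.MP_e3f158_nt.WA

open Finset Filter D2

theorem sum_cnt (n H : ℕ) : ∑ i ∈ range n, cnt (i * H) H = Nat.primeCounting (n * H) := by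
  induction n with
  | zero => simp
  | succ n ih =>
    rw [sum_range_succ, ih, add_mul, one_mul, primeCounting_add]

theorem sq_comb (N H : ℕ) (hH : 1 ≤ H) :
    ∑ i ∈ range (N / H), (cnt (i * H) H) ^ 2 ≤ Nat.primeCounting N +
      2 * ∑ d ∈ Icc 1 H, ((range (N + 1)).filter fun n => n.Prime ∧ (n + d).Prime).card := by
  classical
  set S : ℕ → Finset ℕ := fun i => (Ioc 0 H).filter fun h => (i * H + h).Prime with hS
  have h1 : ∀ i, (cnt (i * H) H) ^ 2 = cnt (i * H) H + (S i).offDiag.card := by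
    intro i
    have e1 : cnt (i * H) H = (S i).card := rfl
    rw [offDiag_card, e1]
    have e2 : (S i).card ≤ (S i).card * (S i).card := Nat.le_mul_self _
    rw [sq]
    omega
  have h2 : ∑ i ∈ range (N / H), cnt (i * H) H ≤ Nat.primeCounting N := by
    rw [sum_cnt]
    exact Nat.monotone_primeCounting (Nat.div_mul_le_self N H)
  have h3 : ∑ i ∈ range (N / H), (S i).offDiag.card ≤
      2 * ∑ d ∈ Icc 1 H, ((range (N + 1)).filter fun n => n.Prime ∧ (n + d).Prime).card := by
    have e1 : ∑ i ∈ range (N / H), (S i).offDiag.card =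
        ((range (N / H)).sigma fun i => (S i).offDiag).card := (card_sigma _ _).symm
    have e2 : 2 * ∑ d ∈ Icc 1 H, ((range (N + 1)).filter fun n => n.Prime ∧ (n + d).Prime).card =
        ((univ : Finset Bool) ×ˢ ((Icc 1 H).sigma fun d =>
          (range (N + 1)).filter fun n => n.Prime ∧ (n + d).Prime)).card := by
      rw [card_product, card_sigma]
      simp
    rw [e1, e2]
    refine card_le_card_of_injOn (fun x => (decide (x.2.1 < x.2.2),
      ⟨Nat.dist x.2.1 x.2.2, x.1 * H + min x.2.1 x.2.2⟩)) ?_ ?_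
    · rintro ⟨i, h, h'⟩ hx
      rw [mem_coe, mem_sigma, mem_offDiag, mem_filter, mem_filter, mem_Ioc, mem_Ioc, mem_range] at hx
      obtain ⟨hi, ⟨⟨h1, h2⟩, h3⟩, ⟨⟨h4, h5⟩, h6⟩, hne⟩ := hx
      simp only at hi h1 h2 h3 h4 h5 h6 hne
      have hiN : (i + 1) * H ≤ N := (Nat.le_div_iff_mul_le (by omega)).1 hi
      have hiN' : i * H + H ≤ N := by rw [add_mul, one_mul] at hiN; exact hiN
      rw [mem_coe, mem_product, mem_sigma, mem_filter, mem_range, mem_Icc]
      refine ⟨mem_univ _, ?_⟩
      simp only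
      rcases lt_or_gt_of_ne hne with hlt | hlt
      · rw [Nat.dist_eq_sub_of_le hlt.le, min_eq_left hlt.le]
        refine ⟨by omega, by omega, h3, ?_⟩
        have e : i * H + h + (h' - h) = i * H + h' := by omega
        rw [e]
        exact h6
      · rw [Nat.dist_eq_sub_of_le_right hlt.le, min_eq_right hlt.le]
        refine ⟨by omega, by omega, h6, ?_⟩
        have e : i * H + h' + (h - h') = i * H + h := by omega
        rw [e]
        exact h3
    · rintro ⟨i, h, h'⟩ hx ⟨j, k, k'⟩ hy he
      rw [mem_coe, mem_sigma, mem_offDiag, mem_filter, mem_filter, mem_Ioc, mem_Ioc, mem_range] at hx hy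
      obtain ⟨-, ⟨⟨h1, h2⟩, -⟩, ⟨⟨h4, h5⟩, -⟩, hne⟩ := hx
      obtain ⟨-, ⟨⟨k1, k2⟩, -⟩, ⟨⟨k4, k5⟩, -⟩, kne⟩ := hy
      simp only at h1 h2 h4 h5 hne k1 k2 k4 k5 kne he
      rw [Prod.mk.injEq, Sigma.mk.injEq] at he
      obtain ⟨hd, hdist, hm⟩ := he
      have hm' : i * H + min h h' = j * H + min k k' := eq_of_heq hm
      have hmin1 : 1 ≤ min h h' ∧ min h h' ≤ H := by
        constructor
        · exact le_min (by omega) (by omega)
        · exact (min_le_left _ _).trans h2
      have hmin2 : 1 ≤ min k k' ∧ min k k' ≤ H := by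
        constructor
        · exact le_min (by omega) (by omega)
        · exact (min_le_left _ _).trans k2
      have hij : i = j := by
        rcases lt_trichotomy i j with hl | hl | hl
        · exfalso
          have : (i + 1) * H ≤ j * H := Nat.mul_le_mul_right _ hl
          rw [add_mul, one_mul] at this
          omega
        · exact hl
        · exfalso
          have : (j + 1) * H ≤ i * H := Nat.mul_le_mul_right _ hl
          rw [add_mul, one_mul] at this
          omega
      subst hij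
      have hmm : min h h' = min k k' := by omega
      have hdec : (h < h') ↔ (k < k') := by
        have := decide_eq_decide.1 hd
        exact this
      have hfin : h = k ∧ h' = k' := by
        rcases lt_or_gt_of_ne hne with hlt | hlt
        · have hlt' := hdec.1 hlt
          rw [min_eq_left hlt.le, min_eq_left hlt'.le] at hmm
          rw [Nat.dist_eq_sub_of_le hlt.le, Nat.dist_eq_sub_of_le hlt'.le] at hdist
          omega
        · have hlt' : k' < k := by
            have : ¬ (k < k') := fun hc => by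
              have := hdec.2 hc
              omega
            omega
          rw [min_eq_right hlt.le, min_eq_right hlt'.le] at hmm
          rw [Nat.dist_eq_sub_of_le_right hlt.le, Nat.dist_eq_sub_of_le_right hlt'.le] at hdist
          omega
      obtain ⟨rfl, rfl⟩ := hfin
      rfl
  rw [sum_congr rfl (fun i _ => h1 i), sum_add_distrib]
  exact Nat.add_le_add h2 h3

/-- the mean of `ES` -/
theorem sum_ES : ∃ C : ℝ, 1 ≤ C ∧ ∀ H : ℕ, ∑ d ∈ Icc 1 H, ES d.primeFactors ≤ C * H := by
  obtain ⟨C, hC1, hC⟩ := avg_ES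
  refine ⟨max 1 ((C * Real.log 2) ^ 2), le_max_left _ _, fun H => ?_⟩
  have h1 := hC 2 le_rfl H
  have h2 : ∑ d ∈ Icc 1 H, ES d.primeFactors ≤ ∑ d ∈ Icc 1 H, (ES d.primeFactors) ^ 2 := by
    refine sum_le_sum fun d _ => ?_
    have h3 : 1 ≤ ES d.primeFactors := Real.one_le_exp (sum_nonneg fun p _ => by positivity)
    nlinarith
  have h4 : (H : ℝ) * (C * Real.log 2) ^ 2 ≤ max 1 ((C * Real.log 2) ^ 2) * H := by
    rw [mul_comm]
    exact mul_le_mul_of_nonneg_right (le_max_right _ _) (Nat.cast_nonneg _)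
  exact (h2.trans h1).trans (by exact_mod_cast h4)

/-- the second moment of the number of primes in blocks of length `H ≥ log N` -/
theorem sq_sum : ∃ C : ℝ, 1 ≤ C ∧ ∀ᶠ N : ℕ in atTop, ∀ H : ℕ, 1 ≤ H → Real.log N ≤ H →
    ∑ i ∈ range (N / H), ((cnt (i * H) H : ℕ) : ℝ) ^ 2 ≤ C * N * H / (Real.log N) ^ 2 := by
  obtain ⟨C₁, hC₁, hsieve⟩ := tuple_sieve
  obtain ⟨C₂, hC₂, hES⟩ := sum_ES
  have hlog2 : 0 < Real.log 2 := Real.log_pos (by norm_num)
  have hlog3 : 0 < Real.log 3 := Real.log_pos (by norm_num)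
  have hC0 : 0 ≤ 2 * (C₁ * Real.log 2) + 4 * (2 * C₁ * Real.log 3) ^ 2 * C₂ := by positivity
  refine ⟨2 * (C₁ * Real.log 2) + 4 * (2 * C₁ * Real.log 3) ^ 2 * C₂ + 1, by linarith, ?_⟩
  have hL : Tendsto (fun N : ℕ => Real.log N) atTop atTop :=
    Real.tendsto_log_atTop.comp tendsto_natCast_atTop_atTop
  filter_upwards [hL.eventually_ge_atTop (C₁ * 2 * Real.log 3), hL.eventually_ge_atTop 1,
    eventually_ge_atTop 1] with N h1 h2 h3 H hH hHL
  have hN1 : (1 : ℝ) ≤ N := by exact_mod_cast h3
  set L := Real.log N with hLdef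
  have hL0 : 0 < L := by linarith
  have hL' : L ≤ Real.log ((N + 1 : ℕ) : ℝ) :=
    Real.log_le_log (by linarith) (by push_cast; linarith)
  set L' := Real.log ((N + 1 : ℕ) : ℝ) with hL'def
  have hHr : (1 : ℝ) ≤ H := by exact_mod_cast hH
  -- number of primes
  have hpi : (Nat.primeCounting N : ℝ) ≤ 2 * (C₁ * Real.log 2) * N / L := by
    have h4 := hsieve {0} (by simp) (N + 1) (by
      rw [card_singleton]
      push_cast
      have e1 : C₁ * 1 * Real.log (1 + 1) ≤ C₁ * 2 * Real.log 3 := by
        have e2 : Real.log (1 + 1) ≤ Real.log 3 := Real.log_le_log (by norm_num) (by norm_num)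
        have e3 : 0 ≤ Real.log (1 + 1 : ℝ) := Real.log_nonneg (by norm_num)
        nlinarith
      have e4 : Real.log ((N : ℝ) + 1) = L' := by rw [hL'def]; push_cast; rfl
      rw [e4]
      linarith)
    have e5 : ((range (N + 1)).filter fun n => ∀ h ∈ ({0} : Finset ℕ), (n + h).Prime) =
        (range (N + 1)).filter Nat.Prime := by
      apply filter_congr
      intro n _
      simp
    rw [e5, card_singleton] at h4
    have e6 : Nat.primeCounting N = ((range (N + 1)).filter Nat.Prime).card := by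
      rw [Nat.primeCounting, Nat.primeCounting', Nat.count_eq_card_filter_range]
    rw [e6]
    refine h4.trans ?_
    rw [pow_one, Nat.sub_self, pow_zero, mul_one]
    push_cast
    have e7 : Real.log (1 + 1 : ℝ) = Real.log 2 := by norm_num
    have e4 : Real.log ((N : ℝ) + 1) = L' := by rw [hL'def]; push_cast; rfl
    rw [e7, e4, mul_one]
    calc ((N : ℝ) + 1) * (C₁ * Real.log 2 / L') ≤ (2 * N) * (C₁ * Real.log 2 / L) := by
          refine mul_le_mul (by linarith) ?_ (by positivity) (by positivity)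
          exact div_le_div_of_nonneg_left (by positivity) hL0 hL'
      _ = 2 * (C₁ * Real.log 2) * N / L := by ring
  -- pairs of primes
  have hpair : ∀ d ∈ Icc 1 H,
      (((range (N + 1)).filter fun n => n.Prime ∧ (n + d).Prime).card : ℝ) ≤
        2 * N * (2 * C₁ * Real.log 3) ^ 2 / L ^ 2 * ES d.primeFactors := by
    intro d hd
    have hd1 := (mem_Icc.1 hd).1
    have hcard : ({0, d} : Finset ℕ).card = 2 := card_pair (by omega)
    have h4 := hsieve {0, d} (by simp) (N + 1) (by
      rw [hcard]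
      push_cast
      have e4 : Real.log ((N : ℝ) + 1) = L' := by rw [hL'def]; push_cast; rfl
      rw [e4]
      have e5 : Real.log (2 + 1 : ℝ) = Real.log 3 := by norm_num
      rw [e5]
      linarith)
    have e5 : ((range (N + 1)).filter fun n => ∀ h ∈ ({0, d} : Finset ℕ), (n + h).Prime) =
        (range (N + 1)).filter fun n => n.Prime ∧ (n + d).Prime := by
      apply filter_congr
      intro n _
      simp
    rw [e5, hcard, PSW.dset_pair hd1] at h4
    refine h4.trans ?_
    have e7 : Real.log (((2 : ℕ) : ℝ) + 1) = Real.log 3 := by norm_num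
    have e4 : Real.log (((N + 1 : ℕ) : ℝ)) = L' := rfl
    rw [e7, e4]
    have hES0 : 0 ≤ ES d.primeFactors := (Real.exp_pos _).le
    have e8 : (ES d.primeFactors) ^ (2 - 1) = ES d.primeFactors := by norm_num
    rw [e8]
    refine mul_le_mul_of_nonneg_right ?_ hES0
    push_cast
    calc ((N : ℝ) + 1) * (C₁ * 2 * Real.log 3 / L') ^ 2 ≤
          (2 * N) * (C₁ * 2 * Real.log 3 / L) ^ 2 := by
          refine mul_le_mul (by linarith) ?_ (by positivity) (by positivity)
          refine pow_le_pow_left₀ (by positivity) ?_ 2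
          exact div_le_div_of_nonneg_left (by positivity) hL0 hL'
      _ = 2 * N * (2 * C₁ * Real.log 3) ^ 2 / L ^ 2 := by
          rw [div_pow]
          ring
  have hcomb := sq_comb N H hH
  have hcomb' : ∑ i ∈ range (N / H), ((cnt (i * H) H : ℕ) : ℝ) ^ 2 ≤ (Nat.primeCounting N : ℝ) +
      2 * ∑ d ∈ Icc 1 H, (((range (N + 1)).filter fun n => n.Prime ∧ (n + d).Prime).card : ℝ) := by
    exact_mod_cast hcomb
  refine hcomb'.trans ?_
  have hsum : ∑ d ∈ Icc 1 H, (((range (N + 1)).filter fun n => n.Prime ∧ (n + d).Prime).card : ℝ) ≤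
      2 * N * (2 * C₁ * Real.log 3) ^ 2 / L ^ 2 * (C₂ * H) := by
    refine (sum_le_sum hpair).trans ?_
    rw [← mul_sum]
    exact mul_le_mul_of_nonneg_left (hES H) (by positivity)
  have hfirst : 2 * (C₁ * Real.log 2) * N / L ≤ 2 * (C₁ * Real.log 2) * N * H / L ^ 2 := by
    rw [div_le_div_iff₀ hL0 (by positivity)]
    have e1 : 0 ≤ 2 * (C₁ * Real.log 2) * N * L := by positivity
    have e2 := mul_le_mul_of_nonneg_left hHL e1
    calc 2 * (C₁ * Real.log 2) * ↑N * L ^ 2 = 2 * (C₁ * Real.log 2) * N * L * L := by ring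
      _ ≤ 2 * (C₁ * Real.log 2) * N * L * H := e2
      _ = _ := by ring
  have hlast : 0 ≤ (N : ℝ) * H / L ^ 2 := by positivity
  calc (Nat.primeCounting N : ℝ) +
      2 * ∑ d ∈ Icc 1 H, (((range (N + 1)).filter fun n => n.Prime ∧ (n + d).Prime).card : ℝ)
      ≤ 2 * (C₁ * Real.log 2) * N * H / L ^ 2 +
        2 * (2 * N * (2 * C₁ * Real.log 3) ^ 2 / L ^ 2 * (C₂ * H)) := by
        refine add_le_add (hpi.trans hfirst) ?_
        exact mul_le_mul_of_nonneg_left hsum (by norm_num)
    _ = (2 * (C₁ * Real.log 2) + 4 * (2 * C₁ * Real.log 3) ^ 2 * C₂) * (N * H / L ^ 2) := by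
        ring
    _ ≤ (2 * (C₁ * Real.log 2) + 4 * (2 * C₁ * Real.log 3) ^ 2 * C₂) * (N * H / L ^ 2) +
        N * H / L ^ 2 := by linarith
    _ = _ := by ring

end Pool.Agent.Lib.MP_e3f158_nt.WA
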