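import Pool.Agent.Lib.MP_e3f158_nt.D2.Hit
import Pool.Agent.Lib.MP_e3f158_nt.WA.SqSum

/-!
# MP_e3f158_nt: iterated primes hit a positive proportion of the blocks of length `C (log N)^R`

The numbers `pr^[R] x` have mean distance about `(log N)^R` at `N`; for every `R` there are `c, C > 0`
such that for large `N` and `H ≥ C (log N)^R`, `4 H² ≤ N`, at least `c N / H` of the blocks of length
`H` up to `N` contain one of them.
-/

namespace Pool.Agent.Lib.MP_e3f158_nt.WA

open Finset Filter D2

/-- the sharp form of `D2.HitP` -/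
def HitS (R : ℕ) : Prop := ∃ c : ℝ, 0 < c ∧ ∃ C : ℝ, 1 ≤ C ∧ ∀ᶠ N : ℕ in Filter.atTop, ∀ H : ℕ,
    C * (Real.log N) ^ R ≤ H → 4 * (H : ℝ) ^ 2 ≤ N →
    c * N / H ≤
      (((range (N / H)).filter fun i => pic R (i * H) < pic R ((i + 1) * H)).card : ℝ)

private theorem block (i H H' : ℕ) (hH' : 1 ≤ H') (S : Finset ℕ)
    (hS : ∀ t ∈ S, 1 ≤ t ∧ i * H < pr t ∧ pr t ≤ (i + 1) * H)
    (hsep : ∀ t ∈ S, ∀ t' ∈ S, t < t' → t + H' ≤ t') :
    S.card ≤ cnt (i * H) H / H' + 1 := by
  have hx : ∀ t ∈ S, Nat.primeCounting (i * H) + 1 ≤ t ∧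
      t ≤ Nat.primeCounting (i * H) + cnt (i * H) H := by
    intro t ht
    obtain ⟨h1, h2, h3⟩ := hS t ht
    constructor
    · by_contra hcon
      have : pr t ≤ i * H := (pr_le_iff t (i * H) h1).2 (by omega)
      omega
    · rw [← primeCounting_add, show i * H + H = (i + 1) * H by ring]
      exact (pr_le_iff t ((i + 1) * H) h1).1 h3
  have hcard := Finset.card_le_card_of_injOn (s := S)
    (t := range (cnt (i * H) H / H' + 1))
    (fun t => (t - Nat.primeCounting (i * H) - 1) / H') ?_ ?_
  · rwa [card_range] at hcard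
  · intro t ht
    obtain ⟨h1, h2⟩ := hx t ht
    rw [mem_coe, mem_range]
    refine Nat.lt_succ_of_le (Nat.div_le_div_right ?_)
    omega
  · intro t ht t' ht' heq
    simp only at heq
    have key : ∀ u ∈ S, ∀ v ∈ S, u < v →
        (u - Nat.primeCounting (i * H) - 1) / H' ≠ (v - Nat.primeCounting (i * H) - 1) / H' := by
      intro u hu v hv huv he
      have h1 := hsep u hu v hv huv
      obtain ⟨h2, -⟩ := hx u hu
      have h3 : u - Nat.primeCounting (i * H) - 1 + H' ≤ v - Nat.primeCounting (i * H) - 1 := by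
        omega
      have h4 := Nat.div_le_div_right (c := H') h3
      rw [Nat.add_div_right _ (by omega)] at h4
      omega
    rcases lt_trichotomy t t' with h | h | h
    · exact absurd heq (key t ht t' ht' h)
    · exact h
    · exact absurd heq.symm (key t' ht' t ht h)

/-- the form of `D2.transfer` with the numbers of primes in the bad blocks -/
theorem transferS (N H H' U : ℕ) (hH : 1 ≤ H) (hH' : 1 ≤ H') (T : Finset ℕ)
    (hT : ∀ t ∈ T, 1 ≤ t ∧ pr t ≤ N)
    (hsep : ∀ t ∈ T, ∀ t' ∈ T, t < t' → t + H' ≤ t') :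
    T.card ≤
      ((range (N / H)).filter fun i => ∃ t ∈ T, i * H < pr t ∧ pr t ≤ (i + 1) * H).card *
          (U / H' + 1) +
        ∑ i ∈ (range (N / H)).filter fun i => U < cnt (i * H) H, (cnt (i * H) H / H' + 1) +
        (H / H' + 1) := by
  classical
  have hpr : ∀ t, 1 ≤ pr t := fun t => (pr_prime t).one_le
  have hfib : ∀ t ∈ T, (pr t - 1) / H ∈ range (N / H + 1) := by
    intro t ht
    have h1 := (hT t ht).2
    rw [mem_range]
    have : (pr t - 1) / H ≤ N / H := Nat.div_le_div_right (by omega)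
    omega
  have hloc : ∀ t i, (pr t - 1) / H = i → i * H < pr t ∧ pr t ≤ (i + 1) * H := by
    intro t i hi
    have h1 := hpr t
    have h2 : i * H ≤ pr t - 1 := by
      rw [← hi]; exact Nat.div_mul_le_self _ _
    have h3 : pr t - 1 < (i + 1) * H := by
      rw [← Nat.div_lt_iff_lt_mul (by omega : 0 < H)]
      omega
    constructor <;> omega
  rw [card_eq_sum_card_fiberwise hfib, sum_range_succ]
  have hblk : ∀ i, (T.filter fun t => (pr t - 1) / H = i).card ≤ cnt (i * H) H / H' + 1 := by
    intro i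
    refine block i H H' hH' _ ?_ ?_
    · intro t ht
      rw [mem_filter] at ht
      exact ⟨(hT t ht.1).1, hloc t i ht.2⟩
    · intro t ht t' ht' h
      rw [mem_filter] at ht ht'
      exact hsep t ht.1 t' ht'.1 h
  have hmain : ∀ i ∈ range (N / H), (T.filter fun t => (pr t - 1) / H = i).card ≤
      (if (∃ t ∈ T, i * H < pr t ∧ pr t ≤ (i + 1) * H) then (U / H' + 1) else 0) +
      (if U < cnt (i * H) H then (cnt (i * H) H / H' + 1) else 0) := by
    intro i _
    by_cases h2 : U < cnt (i * H) H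
    · rw [if_pos h2]
      have := hblk i
      omega
    · rw [if_neg h2]
      by_cases h1 : ∃ t ∈ T, i * H < pr t ∧ pr t ≤ (i + 1) * H
      · rw [if_pos h1]
        refine (hblk i).trans ?_
        have : cnt (i * H) H / H' ≤ U / H' := Nat.div_le_div_right (by omega)
        omega
      · rw [if_neg h1]
        have : (T.filter fun t => (pr t - 1) / H = i) = ∅ := by
          rw [filter_eq_empty_iff]
          intro t ht hti
          exact h1 ⟨t, ht, hloc t i hti⟩
        rw [this]; simp
  have hsum := sum_le_sum hmain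
  rw [sum_add_distrib, ← sum_filter, ← sum_filter, sum_const, smul_eq_mul] at hsum
  have hlast : (T.filter fun t => (pr t - 1) / H = N / H).card ≤ H / H' + 1 := by
    refine (hblk _).trans ?_
    have : cnt (N / H * H) H / H' ≤ H / H' := Nat.div_le_div_right (cnt_le _ _)
    omega
  exact Nat.add_le_add hsum hlast

private theorem hit_par (R N H H' U e : ℕ) (hH : 1 ≤ H) (hH' : 1 ≤ H') :
    ((range (Nat.primeCounting N / H')).filter fun j =>
        j % 2 = e ∧ pic R (j * H') < pic R ((j + 1) * H')).card ≤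
      ((range (N / H)).filter fun i => pic (R + 1) (i * H) < pic (R + 1) ((i + 1) * H)).card *
          (U / H' + 1) +
        ∑ i ∈ (range (N / H)).filter fun i => U < cnt (i * H) H, (cnt (i * H) H / H' + 1) +
        (H / H' + 1) := by
  classical
  set D := (range (Nat.primeCounting N / H')).filter fun j =>
        j % 2 = e ∧ pic R (j * H') < pic R ((j + 1) * H') with hD
  let s : ℕ → ℕ := fun j => pr^[R] (pic R ((j + 1) * H'))
  have hs : ∀ j ∈ D, j * H' < s j ∧ s j ≤ (j + 1) * H' ∧ 1 ≤ pic R ((j + 1) * H') := by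
    intro j hj
    rw [hD, mem_filter] at hj
    have hy : 1 ≤ pic R ((j + 1) * H') := by omega
    refine ⟨?_, ?_, hy⟩
    · have h1 := iter_le_iff R (pic R ((j + 1) * H')) (j * H') hy
      by_contra h2
      rw [not_lt] at h2
      have := h1.1 h2
      omega
    · exact (iter_le_iff R _ _ hy).2 (le_refl _)
  have hlt : ∀ j ∈ D, ∀ j' ∈ D, j < j' → s j + H' ≤ s j' := by
    intro j hj j' hj' h
    have h1 := hs j hj
    have h2 := hs j' hj'
    have h3 : j + 2 ≤ j' := by
      rw [hD, mem_filter] at hj hj'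
      omega
    have h4 : (j + 2) * H' ≤ j' * H' := Nat.mul_le_mul_right _ h3
    have h5 : (j + 2) * H' = (j + 1) * H' + H' := by ring
    omega
  have hinj : Set.InjOn s D := by
    intro j hj j' hj' h
    rcases lt_trichotomy j j' with h1 | h1 | h1
    · have := hlt j hj j' hj' h1
      omega
    · exact h1
    · have := hlt j' hj' j hj h1
      omega
  have hcard : (D.image s).card = D.card := card_image_of_injOn hinj
  rw [← hcard]
  refine (transferS N H H' U hH hH' (D.image s) ?_ ?_).trans ?_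
  · intro t ht
    obtain ⟨j, hj, rfl⟩ := mem_image.1 ht
    have h1 := hs j hj
    have h2 : 1 ≤ s j := by omega
    refine ⟨h2, (pr_le_iff _ _ h2).2 ?_⟩
    rw [hD, mem_filter, mem_range] at hj
    have h3 : (j + 1) * H' ≤ Nat.primeCounting N :=
      (Nat.le_div_iff_mul_le (by omega)).1 hj.1
    omega
  · intro t ht t' ht' h
    obtain ⟨j, hj, rfl⟩ := mem_image.1 ht
    obtain ⟨j', hj', rfl⟩ := mem_image.1 ht'
    rcases lt_trichotomy j j' with h1 | h1 | h1
    · exact hlt j hj j' hj' h1
    · rw [h1] at h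
      omega
    · have := hlt j' hj' j hj h1
      omega
  · refine Nat.add_le_add_right (Nat.add_le_add_right (Nat.mul_le_mul_right _ (card_le_card ?_)) _) _
    intro i hi
    rw [mem_filter] at hi ⊢
    refine ⟨hi.1, ?_⟩
    obtain ⟨t, ht, h1, h2⟩ := hi.2
    obtain ⟨j, hj, rfl⟩ := mem_image.1 ht
    have h3 := hs j hj
    have h4 : pr (s j) = pr^[R + 1] (pic R ((j + 1) * H')) := by
      rw [Function.iterate_succ_apply']
    rw [h4] at h1 h2
    have h5 := (iter_le_iff (R + 1) _ ((i + 1) * H) h3.2.2).1 h2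
    have h6 : ¬ pic R ((j + 1) * H') ≤ pic (R + 1) (i * H) := by
      intro h7
      have := (iter_le_iff (R + 1) _ (i * H) h3.2.2).2 h7
      omega
    omega

private theorem hit_fin (R N H H' U : ℕ) (hH : 1 ≤ H) (hH' : 1 ≤ H') :
    ((range (Nat.primeCounting N / H')).filter fun j =>
        pic R (j * H') < pic R ((j + 1) * H')).card ≤
      2 * (((range (N / H)).filter fun i =>
          pic (R + 1) (i * H) < pic (R + 1) ((i + 1) * H)).card * (U / H' + 1) +
        ∑ i ∈ (range (N / H)).filter fun i => U < cnt (i * H) H, (cnt (i * H) H / H' + 1) +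
        (H / H' + 1)) := by
  classical
  have h0 := hit_par R N H H' U 0 hH hH'
  have h1 := hit_par R N H H' U 1 hH hH'
  have h2 : ((range (Nat.primeCounting N / H')).filter fun j =>
        pic R (j * H') < pic R ((j + 1) * H')) ⊆
      ((range (Nat.primeCounting N / H')).filter fun j =>
        j % 2 = 0 ∧ pic R (j * H') < pic R ((j + 1) * H')) ∪
      ((range (Nat.primeCounting N / H')).filter fun j =>
        j % 2 = 1 ∧ pic R (j * H') < pic R ((j + 1) * H')) := by
    intro j hj
    rw [mem_filter] at hj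
    rw [mem_union, mem_filter, mem_filter]
    rcases Nat.mod_two_eq_zero_or_one j with h | h
    · exact Or.inl ⟨hj.1, h, hj.2⟩
    · exact Or.inr ⟨hj.1, h, hj.2⟩
  have h3 := (card_le_card h2).trans (card_union_le _ _)
  omega

private theorem hit_zero : HitS 0 := by
  refine ⟨1 / 2, by norm_num, 1, le_rfl, ?_⟩
  filter_upwards [] with N H hHC hN
  have hHr : (1 : ℝ) ≤ H := by simpa using hHC
  have hH : 1 ≤ H := by exact_mod_cast hHr
  have h1 : ((range (N / H)).filter fun i => pic 0 (i * H) < pic 0 ((i + 1) * H)) =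
      range (N / H) := by
    apply filter_true_of_mem
    intro i _
    rw [pic_zero, pic_zero, add_mul]
    omega
  rw [h1, card_range]
  have h2 : (N : ℝ) / H < ((N / H : ℕ) : ℝ) + 1 := by
    rw [div_lt_iff₀ (by linarith)]
    have h3 : N < (N / H + 1) * H := by
      have := Nat.lt_div_mul_add (a := N) (b := H) (by omega)
      rw [add_mul]
      omega
    exact_mod_cast h3
  have h4 : (2 : ℝ) ≤ (N : ℝ) / H := by
    rw [le_div_iff₀ (by linarith)]
    nlinarith
  have h5 : 1 / 2 * (N : ℝ) / H = (N : ℝ) / H / 2 := by ring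
  rw [h5]
  linarith

private theorem hit_log (k : ℕ) (M : ℝ) : ∀ᶠ N : ℕ in atTop, M * (Real.log N) ^ k ≤ N := by
  have h1 : (fun x : ℝ => (Real.log x) ^ k) =o[atTop] (fun x : ℝ => x) :=
    Real.isLittleO_pow_log_id_atTop
  have h2 := h1.bound (c := 1 / (|M| + 1)) (by positivity)
  filter_upwards [tendsto_natCast_atTop_atTop.eventually h2, eventually_ge_atTop 1] with N hN hN1
  have hN1r : (1 : ℝ) ≤ N := by exact_mod_cast hN1
  have hl : 0 ≤ Real.log N := Real.log_nonneg hN1r
  rw [Real.norm_of_nonneg (by positivity), Real.norm_of_nonneg (by positivity)] at hN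
  have h3 : (|M| + 1) * (Real.log N) ^ k ≤ N := by
    have h4 : (|M| + 1) * (Real.log N) ^ k ≤ (|M| + 1) * (1 / (|M| + 1) * N) :=
      mul_le_mul_of_nonneg_left hN (by positivity)
    have h5 : (|M| + 1) * (1 / (|M| + 1) * (N : ℝ)) = N := by
      field_simp
    linarith
  have h6 : M * (Real.log N) ^ k ≤ (|M| + 1) * (Real.log N) ^ k := by
    refine mul_le_mul_of_nonneg_right ?_ (by positivity)
    have := le_abs_self M
    linarith
  linarith

private theorem hit_loglarge (M : ℝ) : ∀ᶠ N : ℕ in atTop, M ≤ Real.log N :=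
  (Real.tendsto_log_atTop.comp tendsto_natCast_atTop_atTop).eventually_ge_atTop M

private theorem hit_step (R : ℕ) (h : HitS R) : HitS (R + 1) := by
  obtain ⟨c, hc, C, hC, hK⟩ := h
  obtain ⟨C₂, hC₂, hE⟩ := sq_sum
  -- `A` large compared with `C₂ / c`
  set A : ℝ := 64 * C₂ / c + 1 with hA
  have hA1 : 1 ≤ A := by rw [hA]; have : 0 ≤ 64 * C₂ / c := by positivity
                         linarith
  have hA0 : 0 < A := by linarith
  have hAc : 64 * C₂ ≤ c * A := by
    rw [hA]
    have : c * (64 * C₂ / c + 1) = 64 * C₂ + c := by field_simp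
    rw [this]
    linarith
  refine ⟨c / (16 * A), by positivity, 2 * C, by linarith, ?_⟩
  filter_upwards [Nat.tendsto_primeCounting.eventually hK, hE, primeCounting_ge,
    hit_log (2 * R + 1) (32 * C ^ 2), hit_log 2 (64 ^ 2 * 16 / c ^ 2), hit_loglarge 2,
    eventually_ge_atTop 2] with N h1 h2 h3 h4 h5 h6 h7 H hHK hHN
  set L := Real.log N with hL
  have hNr : (2 : ℝ) ≤ N := by exact_mod_cast h7
  have hL0 : 0 < L := by linarith
  have hC0 : 0 < C := by linarith
  have hLK1 : ∀ k : ℕ, 1 ≤ L ^ k := fun k => one_le_pow₀ (by linarith)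
  have hCL : 1 ≤ C * L ^ R := one_le_mul_of_one_le_of_one_le hC (hLK1 R)
  set H' := ⌈C * L ^ R⌉₊ with hH'def
  have hH'1 : 1 ≤ H' := by
    rw [hH'def, Nat.one_le_ceil_iff]
    linarith
  have hH'ge : C * L ^ R ≤ H' := Nat.le_ceil _
  have hH'le : (H' : ℝ) ≤ 2 * (C * L ^ R) := by
    have := Nat.ceil_lt_add_one (a := C * L ^ R) (by positivity)
    rw [← hH'def] at this
    linarith
  have hH'r : (1 : ℝ) ≤ H' := by exact_mod_cast hH'1
  have hHLH' : L * H' ≤ H := by
    have h8 : L * (H' : ℝ) ≤ L * (2 * (C * L ^ R)) := mul_le_mul_of_nonneg_left hH'le hL0.le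
    have h9 : L * (2 * (C * L ^ R)) = 2 * C * L ^ (R + 1) := by ring
    linarith
  have hH'H : (H' : ℝ) ≤ H :=
    le_trans (le_mul_of_one_le_left (by positivity) (by linarith)) hHLH'
  have hHr : (1 : ℝ) ≤ H := by linarith
  have hH : 1 ≤ H := by exact_mod_cast hHr
  have hLH : L ≤ H := le_trans (le_mul_of_one_le_right hL0.le hH'r) hHLH'
  have hN' : (N : ℝ) / (2 * L) ≤ Nat.primeCounting N := h3
  have hN'le : (Nat.primeCounting N : ℝ) ≤ N := by
    have := pic_le 1 N
    rw [pic_succ, pic_zero] at this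
    exact_mod_cast this
  have hN'pos : (0 : ℝ) < Nat.primeCounting N := lt_of_lt_of_le (by positivity) hN'
  have hlog' : C * (Real.log (Nat.primeCounting N : ℝ)) ^ R ≤ H' := by
    refine le_trans ?_ hH'ge
    have h8 : Real.log (Nat.primeCounting N : ℝ) ≤ L := Real.log_le_log hN'pos hN'le
    have h9 : 0 ≤ Real.log (Nat.primeCounting N : ℝ) := by
      apply Real.log_nonneg
      have : 0 < Nat.primeCounting N := by exact_mod_cast hN'pos
      exact_mod_cast this
    exact mul_le_mul_of_nonneg_left (pow_le_pow_left₀ h9 h8 R) hC0.le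
  have h4H' : 4 * (H' : ℝ) ^ 2 ≤ Nat.primeCounting N := by
    refine le_trans ?_ hN'
    rw [le_div_iff₀ (by positivity)]
    have h8 : (H' : ℝ) ^ 2 ≤ (2 * (C * L ^ R)) ^ 2 := pow_le_pow_left₀ (by positivity) hH'le 2
    calc 4 * (H' : ℝ) ^ 2 * (2 * L) ≤ 4 * (2 * (C * L ^ R)) ^ 2 * (2 * L) := by gcongr
      _ = 32 * C ^ 2 * L ^ (2 * R + 1) := by ring
      _ ≤ N := h4
  have hD := h1 H' hlog' h4H'
  set U := ⌊A * H / L⌋₊ with hU
  have hfin := hit_fin R N H H' U hH hH'1
  have hsq := h2 H hH hLH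
  set D := ((range (Nat.primeCounting N / H')).filter fun j =>
        pic R (j * H') < pic R ((j + 1) * H')).card with hDdef
  set F := ((range (N / H)).filter fun i =>
          pic (R + 1) (i * H) < pic (R + 1) ((i + 1) * H)).card with hFdef
  set B := (range (N / H)).filter fun i => U < cnt (i * H) H with hBdef
  -- the bad blocks
  have hAHL : 0 < A * H / L := by positivity
  have hBc : ∀ i ∈ B, A * H / L < cnt (i * H) H := by
    intro i hi
    rw [hBdef, mem_filter] at hi
    exact (Nat.floor_lt hAHL.le).1 hi.2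
  have hbad : ∑ i ∈ B, (((cnt (i * H) H / H' : ℕ) : ℝ) + 1) ≤ c * N / (16 * L * H') := by
    have e1 : ∀ i ∈ B, (((cnt (i * H) H / H' : ℕ) : ℝ) + 1) ≤
        2 / (A * H / L * H') * ((cnt (i * H) H : ℕ) : ℝ) ^ 2 := by
      intro i hi
      have e2 := hBc i hi
      have e3 : ((cnt (i * H) H / H' : ℕ) : ℝ) ≤ (cnt (i * H) H : ℝ) / H' := Nat.cast_div_le
      have e4 : 1 ≤ (cnt (i * H) H : ℝ) / H' := by
        rw [one_le_div (by positivity)]
        have e5 : (H' : ℝ) ≤ A * H / L := by
          rw [le_div_iff₀ hL0]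
          have : (H' : ℝ) * L ≤ H := by linarith [mul_comm L (H' : ℝ)]
          exact this.trans (le_mul_of_one_le_left (by positivity) hA1)
        linarith
      have e6 : (((cnt (i * H) H / H' : ℕ) : ℝ) + 1) ≤ 2 * ((cnt (i * H) H : ℝ) / H') := by
        linarith
      refine e6.trans ?_
      have e7 : 2 / (A * H / L * H') * ((cnt (i * H) H : ℕ) : ℝ) ^ 2 =
          2 * ((cnt (i * H) H : ℝ) / H') * ((cnt (i * H) H : ℝ) / (A * H / L)) := by
        field_simp
      rw [e7]
      refine le_mul_of_one_le_right (by positivity) ?_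
      rw [one_le_div hAHL]
      exact e2.le
    have e8 : ∑ i ∈ B, (((cnt (i * H) H / H' : ℕ) : ℝ) + 1) ≤
        2 / (A * H / L * H') * (C₂ * N * H / L ^ 2) := by
      refine (sum_le_sum e1).trans ?_
      rw [← mul_sum]
      refine mul_le_mul_of_nonneg_left ?_ (by positivity)
      refine le_trans ?_ hsq
      exact sum_le_sum_of_subset_of_nonneg (filter_subset _ _) (fun i _ _ => by positivity)
    refine e8.trans ?_
    have e9 : 2 / (A * H / L * H') * (C₂ * N * H / L ^ 2) = (2 * C₂ / A) * (N / (L * H')) := by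
      field_simp
    have e10 : c * N / (16 * L * H') = c / 16 * (N / (L * H')) := by
      field_simp
    rw [e9, e10]
    refine mul_le_mul_of_nonneg_right ?_ (by positivity)
    rw [div_le_iff₀ hA0]
    linarith
  have hlastb : ((H / H' : ℕ) : ℝ) + 1 ≤ c * N / (16 * L * H') := by
    have e1 : ((H / H' : ℕ) : ℝ) ≤ H / H' := Nat.cast_div_le
    have e2 : 1 ≤ (H : ℝ) / H' := by
      rw [one_le_div (by positivity)]
      exact hH'H
    have e3 : ((H / H' : ℕ) : ℝ) + 1 ≤ 2 * (H : ℝ) / H' := by
      have : 2 * (H : ℝ) / H' = H / H' + H / H' := by ring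
      linarith
    refine e3.trans ?_
    rw [div_le_div_iff₀ (by positivity) (by positivity)]
    have e4 : 2 * (H : ℝ) * (16 * L) ≤ c * N := by
      have e5 : (64 * 2 * L * H) ^ 2 ≤ (2 * (c * N)) ^ 2 := by
        have e6 : 64 ^ 2 * 16 * L ^ 2 ≤ c ^ 2 * N * 16 := by
          have e7 := mul_le_mul_of_nonneg_left h5 (by positivity : (0 : ℝ) ≤ c ^ 2)
          have e8 : c ^ 2 * (64 ^ 2 * 16 / c ^ 2 * L ^ 2) = 64 ^ 2 * 16 * L ^ 2 := by field_simp
          have e9 : (0 : ℝ) ≤ c ^ 2 * N := by positivity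
          nlinarith
        calc (64 * 2 * L * H) ^ 2 = 64 ^ 2 * L ^ 2 * (4 * (H : ℝ) ^ 2) := by ring
          _ ≤ 64 ^ 2 * L ^ 2 * N := mul_le_mul_of_nonneg_left hHN (by positivity)
          _ ≤ c ^ 2 * N * N := by
              have e9 : 64 ^ 2 * L ^ 2 ≤ c ^ 2 * N := by linarith
              exact mul_le_mul_of_nonneg_right e9 (by positivity)
          _ ≤ (2 * (c * N)) ^ 2 := by nlinarith [sq_nonneg (c * (N : ℝ))]
      have e10 := (pow_le_pow_iff_left₀ (by positivity) (by positivity) two_ne_zero).1 e5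
      have e11 : (0 : ℝ) ≤ L * H := by positivity
      nlinarith
    calc 2 * (H : ℝ) * (16 * L * H') = 2 * (H : ℝ) * (16 * L) * H' := by ring
      _ ≤ c * N * H' := mul_le_mul_of_nonneg_right e4 (by positivity)
  have hfinr : (D : ℝ) ≤ 2 * ((F : ℝ) * (((U / H' : ℕ) : ℝ) + 1) +
      ∑ i ∈ B, (((cnt (i * H) H / H' : ℕ) : ℝ) + 1) + (((H / H' : ℕ) : ℝ) + 1)) := by
    exact_mod_cast hfin
  have hUb : (((U / H' : ℕ) : ℝ) + 1) ≤ 2 * A * H / (L * H') := by
    have h8 : ((U / H' : ℕ) : ℝ) ≤ A * H / (L * H') := by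
      refine Nat.cast_div_le.trans ?_
      rw [← div_div]
      exact div_le_div_of_nonneg_right (Nat.floor_le (by positivity)) (by positivity)
    have h9 : 1 ≤ A * H / (L * H') := by
      rw [one_le_div (by positivity)]
      exact hHLH'.trans (le_mul_of_one_le_left (by positivity) hA1)
    have h10 : 2 * A * H / (L * H') = A * H / (L * H') + A * H / (L * H') := by ring
    linarith
  have hF0 : (0 : ℝ) ≤ F := by positivity
  have hDlow : c * N / (2 * L * H') ≤ D := by
    refine le_trans ?_ hD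
    rw [← div_div]
    refine div_le_div_of_nonneg_right ?_ (by positivity)
    have e1 : c * N / (2 * L) = c * (N / (2 * L)) := by ring
    rw [e1]
    exact mul_le_mul_of_nonneg_left hN' hc.le
  have hmain : c * N / (4 * L * H') ≤ 2 * ((F : ℝ) * (2 * A * H / (L * H'))) := by
    have e1 : (F : ℝ) * (((U / H' : ℕ) : ℝ) + 1) ≤ F * (2 * A * H / (L * H')) :=
      mul_le_mul_of_nonneg_left hUb hF0
    have e2 : c * N / (2 * L * H') = c * N / (4 * L * H') + 4 * (c * N / (16 * L * H')) := by
      field_simp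
      norm_num
    linarith
  have hX : (0 : ℝ) < 1 / (4 * L * H') := by positivity
  have e1 : c * N / (4 * L * H') = (c * N) * (1 / (4 * L * H')) := by ring
  have e2 : 2 * ((F : ℝ) * (2 * A * H / (L * H'))) = (16 * A * H * F) * (1 / (4 * L * H')) := by
    field_simp
    norm_num
    ring
  rw [e1, e2] at hmain
  have e3 := le_of_mul_le_mul_right hmain hX
  rw [div_mul_eq_mul_div, div_div, div_le_iff₀ (by positivity)]
  linarith

theorem hitS (R : ℕ) : HitS R := by
  induction R with
  | zero => exact hit_zero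
  | succ R ih => exact hit_step R ih

end Pool.Agent.Lib.MP_e3f158_nt.WA
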